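import Mathlib

/-!
# The modal language of game models, general game models, and an axiom system
-/

set_option autoImplicit false

namespace Pool.Agent.X329.GGM

/-- The modalities: preference, epistemic indistinguishability and action freedom of a player. -/
inductive Mod (N : Type)
  | le (i : N)
  | sim (i : N)
  | app (i : N)

/-- The formulas of the language `L_N` over the propositional letters `P`. -/
inductive Form (P N : Type)
  | atom (p : P)
  | neg (φ : Form P N)
  | or (φ ψ : Form P N)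
  | dia (m : Mod N) (φ : Form P N)

variable {P N : Type}

/-- `φ → ψ` -/
def Form.imp (φ ψ : Form P N) : Form P N := .or (.neg φ) ψ

/-- `[m] φ` -/
def Form.box (m : Mod N) (φ : Form P N) : Form P N := .neg (.dia m (.neg φ))

/-- A full game model: nonempty sets of actions, reflexive and transitive preference relations on the
set of strategy profiles, and a valuation. -/
structure FullModel (P N : Type) where
  A : N → Type
  ne : ∀ i, Nonempty (A i)
  le : N → (∀ i, A i) → (∀ i, A i) → Prop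
  refl : ∀ i σ, le i σ σ
  trans : ∀ i σ τ υ, le i σ τ → le i τ υ → le i σ υ
  V : P → Set (∀ i, A i)

/-- The relations of a full game model: preference, `σ i = τ i`, and `σ j = τ j` for all `j ≠ i`. -/
def FullModel.rel (M : FullModel P N) : Mod N → (∀ i, M.A i) → (∀ i, M.A i) → Prop
  | .le i => M.le i
  | .sim i => fun σ τ => σ i = τ i
  | .app i => fun σ τ => ∀ j, j ≠ i → σ j = τ j

/-- Truth of a formula at the profile `σ` in the general game model which is the submodel of the full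
game model `M` given by the set `W` of profiles. -/
def Sat (M : FullModel P N) (W : Set (∀ i, M.A i)) : Form P N → (∀ i, M.A i) → Prop
  | .atom p, σ => σ ∈ M.V p
  | .neg φ, σ => ¬ Sat M W φ σ
  | .or φ ψ, σ => Sat M W φ σ ∨ Sat M W ψ σ
  | .dia m φ, σ => ∃ τ ∈ W, M.rel m σ τ ∧ Sat M W φ τ

/-- The formula is valid on general game models: it belongs to `GGM_N`. -/
def Valid (φ : Form P N) : Prop :=
  ∀ (M : FullModel P N) (W : Set (∀ i, M.A i)), ∀ σ ∈ W, Sat M W φ σ

/-- `φ` is a propositional tautology: it is true for all truth values of the letters and of the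
formulas `⟨m⟩ ψ`. -/
def Taut (φ : Form P N) : Prop :=
  ∀ v : Form P N → Prop, (∀ ψ, v (.neg ψ) ↔ ¬ v ψ) → (∀ ψ χ, v (.or ψ χ) ↔ (v ψ ∨ v χ)) → v φ

open Form

/-- The theorems of the axiom system. -/
inductive Prov : Form P N → Prop
  /-- propositional tautologies -/
  | taut (φ : Form P N) : Taut φ → Prov φ
  /-- `[m] (φ → ψ) → ([m] φ → [m] ψ)` -/
  | K (m : Mod N) (φ ψ : Form P N) :
      Prov (imp (box m (imp φ ψ)) (imp (box m φ) (box m ψ)))
  /-- `⟨m⟩ φ → ¬ [m] ¬ φ` -/
  | dual₁ (m : Mod N) (φ : Form P N) : Prov (imp (dia m φ) (neg (box m (neg φ))))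
  /-- `¬ [m] ¬ φ → ⟨m⟩ φ` -/
  | dual₂ (m : Mod N) (φ : Form P N) : Prov (imp (neg (box m (neg φ))) (dia m φ))
  /-- `φ → ⟨m⟩ φ` -/
  | T (m : Mod N) (φ : Form P N) : Prov (imp φ (dia m φ))
  /-- `⟨m⟩ ⟨m⟩ φ → ⟨m⟩ φ` -/
  | four (m : Mod N) (φ : Form P N) : Prov (imp (dia m (dia m φ)) (dia m φ))
  /-- `φ → [∼ᵢ] ⟨∼ᵢ⟩ φ` -/
  | symSim (i : N) (φ : Form P N) : Prov (imp φ (box (.sim i) (dia (.sim i) φ)))
  /-- `φ → [≈ᵢ] ⟨≈ᵢ⟩ φ` -/
  | symApp (i : N) (φ : Form P N) : Prov (imp φ (box (.app i) (dia (.app i) φ)))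
  /-- `⟨≈ᵢ⟩ φ → ⟨∼ⱼ⟩ φ` for `i ≠ j` -/
  | incl (i j : N) (φ : Form P N) : i ≠ j → Prov (imp (dia (.app i) φ) (dia (.sim j) φ))
  /-- if there are exactly two players: `⟨∼ⱼ⟩ φ → ⟨≈ᵢ⟩ φ` for `i ≠ j` -/
  | two (i j : N) (φ : Form P N) : Nat.card N = 2 → i ≠ j →
      Prov (imp (dia (.sim j) φ) (dia (.app i) φ))
  /-- modus ponens -/
  | mp (φ ψ : Form P N) : Prov (imp φ ψ) → Prov φ → Prov ψ
  /-- necessitation -/
  | nec (m : Mod N) (φ : Form P N) : Prov φ → Prov (box m φ)

end Pool.Agent.X329.GGM
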