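import Pool.Agent.X329.GGM.Defs

set_option autoImplicit false
set_option linter.unusedVariables false

namespace Pool.Agent.X329.GGM

open Form

variable {P N : Type}

/-! ### Derivations from sets of formulas -/

/-- `a₁ → (a₂ → ... → φ)` -/
def impl : List (Form P N) → Form P N → Form P N
  | [], φ => φ
  | (a :: L), φ => imp a (impl L φ)

/-- valuations -/
def Val (v : Form P N → Prop) : Prop :=
  (∀ ψ, v (.neg ψ) ↔ ¬ v ψ) ∧ (∀ ψ χ, v (.or ψ χ) ↔ (v ψ ∨ v χ))

theorem Val.imp {v : Form P N → Prop} (hv : Val v) (φ ψ : Form P N) :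
    v (imp φ ψ) ↔ (v φ → v ψ) := by
  rw [Form.imp, hv.2, hv.1]
  tauto

theorem Val.impl {v : Form P N → Prop} (hv : Val v) (L : List (Form P N)) (φ : Form P N) :
    v (impl L φ) ↔ ((∀ a ∈ L, v a) → v φ) := by
  induction L with
  | nil => simp [GGM.impl]
  | cons a L ih =>
    rw [GGM.impl, hv.imp, ih]
    simp only [List.mem_cons, forall_eq_or_imp]
    tauto

theorem taut' {φ : Form P N} (h : ∀ v, Val v → v φ) : Prov φ :=
  Prov.taut φ fun v h1 h2 => h v ⟨h1, h2⟩

/-- derivability from a set of formulas -/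
def Ded (Γ : Set (Form P N)) (φ : Form P N) : Prop :=
  ∃ L : List (Form P N), (∀ a ∈ L, a ∈ Γ) ∧ Prov (impl L φ)

theorem Ded.of_prov {Γ : Set (Form P N)} {φ : Form P N} (h : Prov φ) : Ded Γ φ :=
  ⟨[], by simp, h⟩

theorem Ded.of_mem {Γ : Set (Form P N)} {φ : Form P N} (h : φ ∈ Γ) : Ded Γ φ :=
  ⟨[φ], by simpa using h, taut' fun v hv => by rw [hv.impl]; simp⟩

theorem Ded.mp {Γ : Set (Form P N)} {φ ψ : Form P N} (h1 : Ded Γ (imp φ ψ)) (h2 : Ded Γ φ) :
    Ded Γ ψ := by
  obtain ⟨L1, hL1, p1⟩ := h1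
  obtain ⟨L2, hL2, p2⟩ := h2
  refine ⟨L1 ++ L2, ?_, ?_⟩
  · intro a ha
    rcases List.mem_append.1 ha with h | h
    exacts [hL1 a h, hL2 a h]
  · refine Prov.mp _ _ (Prov.mp _ _ (taut' fun v hv => ?_) p1) p2
    rw [hv.imp, hv.imp, hv.impl, hv.impl, hv.impl, hv.imp]
    simp only [List.mem_append]
    intro h1 h2 h3
    exact h1 (fun a ha => h3 a (Or.inl ha)) (h2 fun a ha => h3 a (Or.inr ha))

theorem Ded.deduction {Γ : Set (Form P N)} {φ ψ : Form P N} (h : Ded (insert ψ Γ) φ) :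
    Ded Γ (imp ψ φ) := by
  classical
  obtain ⟨L, hL, p⟩ := h
  refine ⟨L.filter (fun a => a ≠ ψ), ?_, ?_⟩
  · intro a ha
    rw [List.mem_filter] at ha
    rcases hL a ha.1 with h | h
    · simp [h] at ha
    · exact h
  · refine Prov.mp _ _ (taut' fun v hv => ?_) p
    rw [hv.imp, hv.impl, hv.impl, hv.imp]
    intro h1 h2 h3
    refine h1 fun a ha => ?_
    by_cases h : a = ψ
    · rw [h]; exact h3
    · exact h2 a (List.mem_filter.2 ⟨ha, by simpa using h⟩)

/-! ### Maximal consistent sets -/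

/-- maximal consistent sets -/
structure MCS (Γ : Set (Form P N)) : Prop where
  max : ∀ ψ, ψ ∈ Γ ∨ neg ψ ∈ Γ
  cons : ∃ φ, ¬ Ded Γ φ

theorem MCS.closed {Γ : Set (Form P N)} (hΓ : MCS Γ) {φ : Form P N} (h : Ded Γ φ) : φ ∈ Γ := by
  rcases hΓ.max φ with h1 | h1
  · exact h1
  · obtain ⟨χ, hχ⟩ := hΓ.cons
    exfalso
    apply hχ
    have h2 : Prov (imp φ (imp (neg φ) χ)) := taut' fun v hv => by
      rw [hv.imp, hv.imp, hv.1]; tauto
    exact ((Ded.of_prov h2).mp h).mp (Ded.of_mem h1)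

theorem MCS.of_prov {Γ : Set (Form P N)} (hΓ : MCS Γ) {φ : Form P N} (h : Prov φ) : φ ∈ Γ :=
  hΓ.closed (Ded.of_prov h)

theorem MCS.mp {Γ : Set (Form P N)} (hΓ : MCS Γ) {φ ψ : Form P N} (h : Prov (imp φ ψ))
    (h1 : φ ∈ Γ) : ψ ∈ Γ :=
  hΓ.closed ((Ded.of_prov h).mp (Ded.of_mem h1))

theorem MCS.neg {Γ : Set (Form P N)} (hΓ : MCS Γ) (φ : Form P N) : neg φ ∈ Γ ↔ φ ∉ Γ := by
  constructor
  · intro h1 h
    obtain ⟨χ, hχ⟩ := hΓ.cons
    apply hχ
    have h2 : Prov (imp φ (imp (Form.neg φ) χ)) := taut' fun v hv => by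
      rw [hv.imp, hv.imp, hv.1]; tauto
    exact ((Ded.of_prov h2).mp (Ded.of_mem h)).mp (Ded.of_mem h1)
  · intro h
    rcases hΓ.max φ with h1 | h1
    · exact absurd h1 h
    · exact h1

theorem MCS.or {Γ : Set (Form P N)} (hΓ : MCS Γ) (φ ψ : Form P N) :
    or φ ψ ∈ Γ ↔ (φ ∈ Γ ∨ ψ ∈ Γ) := by
  constructor
  · intro h
    by_contra hcon
    push Not at hcon
    rw [← hΓ.neg, ← hΓ.neg] at hcon
    have h2 : Prov (imp (Form.or φ ψ) (imp (Form.neg φ) ψ)) := taut' fun v hv => by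
      rw [hv.imp, hv.imp, hv.1, hv.2]; tauto
    have h3 := hΓ.closed (((Ded.of_prov h2).mp (Ded.of_mem h)).mp (Ded.of_mem hcon.1))
    exact (hΓ.neg ψ).1 hcon.2 h3
  · rintro (h | h)
    · exact hΓ.mp (taut' fun v hv => by rw [hv.imp, hv.2]; tauto) h
    · exact hΓ.mp (taut' fun v hv => by rw [hv.imp, hv.2]; tauto) h

theorem lindenbaum {Γ : Set (Form P N)} {φ : Form P N} (h : ¬ Ded Γ φ) :
    ∃ Δ, Γ ⊆ Δ ∧ MCS Δ ∧ φ ∉ Δ := by
  obtain ⟨Δ, hΓΔ, hΔ⟩ := zorn_subset_nonempty {Δ : Set (Form P N) | ¬ Ded Δ φ} (by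
    intro c hc hchain hne
    refine ⟨⋃₀ c, ?_, fun s hs => Set.subset_sUnion_of_mem hs⟩
    rintro ⟨L, hL, p⟩
    obtain ⟨s, hs, hsL⟩ : ∃ s ∈ c, ∀ a ∈ L, a ∈ s := by
      clear p
      induction L with
      | nil => obtain ⟨s, hs⟩ := hne; exact ⟨s, hs, by simp⟩
      | cons a L ih =>
        obtain ⟨s, hs, h1⟩ := ih fun b hb => hL b (List.mem_cons_of_mem _ hb)
        obtain ⟨t, ht, h2⟩ := hL a List.mem_cons_self
        rcases hchain.total hs ht with h3 | h3
        · refine ⟨t, ht, fun b hb => ?_⟩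
          rcases List.mem_cons.1 hb with rfl | hb
          exacts [h2, h3 (h1 b hb)]
        · refine ⟨s, hs, fun b hb => ?_⟩
          rcases List.mem_cons.1 hb with rfl | hb
          exacts [h3 h2, h1 b hb]
    exact hc hs ⟨L, hsL, p⟩) Γ h
  have hD : ¬ Ded Δ φ := hΔ.prop
  have hmax : ∀ ψ, ψ ∉ Δ → Ded (insert ψ Δ) φ := by
    intro ψ hψ
    by_contra hcon
    exact hψ (hΔ.le_of_ge (y := insert ψ Δ) hcon (Set.subset_insert _ _) (Set.mem_insert _ _))
  refine ⟨Δ, hΓΔ, ⟨fun ψ => ?_, φ, hD⟩, fun h1 => hD (Ded.of_mem h1)⟩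
  by_contra hcon
  push Not at hcon
  have h1 := (hmax ψ hcon.1).deduction
  have h2 := (hmax _ hcon.2).deduction
  have h3 : Prov (imp (imp ψ φ) (imp (imp (Form.neg ψ) φ) φ)) := taut' fun v hv => by
    rw [hv.imp, hv.imp, hv.imp, hv.imp, hv.1]; tauto
  exact hD (((Ded.of_prov h3).mp h1).mp h2)

/-! ### The canonical model -/

theorem box_impl {Γ : Set (Form P N)} (hΓ : MCS Γ) (m : Mod N) (L : List (Form P N))
    (φ : Form P N) (hL : ∀ a ∈ L, box m a ∈ Γ) (h : box m (impl L φ) ∈ Γ) : box m φ ∈ Γ := by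
  induction L with
  | nil => exact h
  | cons a L ih =>
    refine ih (fun b hb => hL b (List.mem_cons_of_mem _ hb)) ?_
    exact hΓ.closed (((Ded.of_prov (Prov.K m a (impl L φ))).mp (Ded.of_mem h)).mp
      (Ded.of_mem (hL a List.mem_cons_self)))

theorem existence {Γ : Set (Form P N)} (hΓ : MCS Γ) (m : Mod N) {φ : Form P N}
    (h : dia m φ ∈ Γ) : ∃ Δ, MCS Δ ∧ φ ∈ Δ ∧ ∀ ψ ∈ Δ, dia m ψ ∈ Γ := by
  have h1 : ¬ Ded {ψ | box m ψ ∈ Γ} (neg φ) := by
    rintro ⟨L, hL, p⟩
    have h2 := box_impl hΓ m L (neg φ) hL (hΓ.of_prov (Prov.nec m _ p))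
    have h3 := hΓ.mp (Prov.dual₁ m φ) h
    exact (hΓ.neg _).1 h3 h2
  obtain ⟨Δ, h2, hΔ, h3⟩ := lindenbaum h1
  refine ⟨Δ, hΔ, ?_, fun ψ hψ => ?_⟩
  · by_contra hcon
    exact h3 ((hΔ.neg φ).2 hcon)
  · by_contra hcon
    have h4 : neg (box m (neg ψ)) ∉ Γ := fun h5 => hcon (hΓ.mp (Prov.dual₂ m ψ) h5)
    have h5 : box m (neg ψ) ∈ Γ := by
      by_contra h6
      exact h4 ((hΓ.neg _).2 h6)
    exact (hΔ.neg ψ).1 (h2 h5) hψ

/-- the worlds of the canonical model -/
def World (P N : Type) : Type := {Γ : Set (Form P N) // MCS Γ}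

/-- the relations of the canonical model -/
def canR (m : Mod N) (Γ Δ : World P N) : Prop := ∀ ψ ∈ Δ.1, dia m ψ ∈ Γ.1

/-- truth in a Kripke model -/
def KSat {X : Type} (R : Mod N → X → X → Prop) (val : P → X → Prop) : Form P N → X → Prop
  | .atom p, x => val p x
  | .neg φ, x => ¬ KSat R val φ x
  | .or φ ψ, x => KSat R val φ x ∨ KSat R val ψ x
  | .dia m φ, x => ∃ y, R m x y ∧ KSat R val φ y

theorem truth (φ : Form P N) (Γ : World P N) :
    KSat canR (fun p Γ => atom p ∈ Γ.1) φ Γ ↔ φ ∈ Γ.1 := by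
  induction φ generalizing Γ with
  | atom p => exact Iff.rfl
  | neg φ ih => rw [KSat, ih, Γ.2.neg]
  | or φ ψ ih1 ih2 => rw [KSat, ih1, ih2, Γ.2.or]
  | dia m φ ih =>
    rw [KSat]
    constructor
    · rintro ⟨Δ, h1, h2⟩
      exact h1 φ ((ih Δ).1 h2)
    · intro h
      obtain ⟨Δ, hΔ, h1, h2⟩ := existence Γ.2 m h
      exact ⟨⟨Δ, hΔ⟩, h2, (ih ⟨Δ, hΔ⟩).2 h1⟩

/-- the frame conditions -/
structure Good {X : Type} (R : Mod N → X → X → Prop) : Prop where
  refl : ∀ m x, R m x x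
  trans : ∀ m x y z, R m x y → R m y z → R m x z
  symSim : ∀ i x y, R (.sim i) x y → R (.sim i) y x
  symApp : ∀ i x y, R (.app i) x y → R (.app i) y x
  incl : ∀ i j x y, i ≠ j → R (.app i) x y → R (.sim j) x y
  two : ∀ i j x y, Nat.card N = 2 → i ≠ j → R (.sim j) x y → R (.app i) x y

theorem can_symm {m : Mod N} (hm : ∀ φ : Form P N, Prov (imp φ (box m (dia m φ))))
    {Γ Δ : World P N} (h : canR m Γ Δ) : canR m Δ Γ := by
  intro ψ hψ
  by_contra hcon
  have h1 := Γ.2.mp (hm ψ) hψ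
  have h2 := h _ ((Δ.2.neg _).2 hcon)
  exact (Γ.2.neg _).1 h1 h2

theorem can_good : Good (N := N) (canR (P := P)) where
  refl m Γ ψ hψ := Γ.2.mp (Prov.T m ψ) hψ
  trans m Γ Δ Θ h1 h2 ψ hψ := Γ.2.mp (Prov.four m ψ) (h1 _ (h2 ψ hψ))
  symSim i Γ Δ h := can_symm (Prov.symSim i) h
  symApp i Γ Δ h := can_symm (Prov.symApp i) h
  incl i j Γ Δ hij h ψ hψ := Γ.2.mp (Prov.incl i j ψ hij) (h ψ hψ)
  two i j Γ Δ h2 hij h ψ hψ := Γ.2.mp (Prov.two i j ψ h2 hij) (h ψ hψ)

/-! ### Unravelling a Kripke model into a general game model -/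

section Unravel

variable {X : Type} (R : Mod N → X → X → Prop) (x0 : X)

open scoped Classical in
/-- the last point of a sequence of steps (the head of the list is the last step; a step with a label
which does not fit is ignored) -/
noncomputable def last : List (Mod N × X) → X
  | [] => x0
  | (a :: l) => if R a.1 (last l) a.2 then a.2 else last l

/-- the labels which do not change the `j`-th coordinate -/
def InL (j : N) (e : Mod N) : Prop := e = .sim j ∨ ∃ k, k ≠ j ∧ e = .app k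

open scoped Classical in
/-- the `j`-th coordinate -/
noncomputable def drop (j : N) (l : List (Mod N × X)) : List (Mod N × X) :=
  l.dropWhile fun a => decide (InL j a.1)

open scoped Classical in
theorem drop_spec (j : N) (l : List (Mod N × X)) : ∃ u, l = u ++ drop j l ∧ ∀ a ∈ u, InL j a.1 := by
  refine ⟨l.takeWhile fun a => decide (InL j a.1), (List.takeWhile_append_dropWhile).symm, ?_⟩
  intro a ha
  simpa using List.mem_takeWhile_imp ha

theorem drop_cons {j : N} {a : Mod N × X} (h : InL j a.1) (l : List (Mod N × X)) :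
    drop j (a :: l) = drop j l := by
  classical
  simp [drop, h]

variable {R}

theorem last_append {m : Mod N} (hR : Good R) (hsymm : ∀ x y, R m x y → R m y x)
    (u s : List (Mod N × X)) (hu : ∀ a ∈ u, ∀ x y, R a.1 x y → R m x y) :
    R m (last R x0 (u ++ s)) (last R x0 s) := by
  induction u with
  | nil => exact hR.refl m _
  | cons a u ih =>
    have h1 := ih fun b hb => hu b (List.mem_cons_of_mem _ hb)
    rw [List.cons_append, last]
    split_ifs with h
    · exact hR.trans m _ _ _ (hsymm _ _ (hu a List.mem_cons_self _ _ h)) h1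
    · exact h1

/-- a common tail -/
theorem common {J : Set N} [Finite N] (hJ : J.Nonempty) {l l' : List (Mod N × X)}
    (h : ∀ j ∈ J, drop j l = drop j l') :
    ∃ u v s, l = u ++ s ∧ l' = v ++ s ∧ (∀ a ∈ u, ∀ j ∈ J, InL j a.1) ∧
      ∀ a ∈ v, ∀ j ∈ J, InL j a.1 := by
  obtain ⟨j0, hj0, hmax⟩ := Set.exists_max_image J (fun j => (drop j l).length) J.toFinite hJ
  have key : ∀ l1 : List (Mod N × X), (∀ j ∈ J, drop j l = drop j l1) → ∀ u1,
      l1 = u1 ++ drop j0 l → ∀ a ∈ u1, ∀ j ∈ J, InL j a.1 := by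
    intro l1 h1 u1 hu1 a ha j hj
    obtain ⟨u2, h2, h3⟩ := drop_spec j l1
    rw [← h1 j hj] at h2
    have h4 : u1 <+: u2 := by
      have h5 : u1 <+: l1 := ⟨_, hu1.symm⟩
      have h6 : u2 <+: l1 := ⟨_, h2.symm⟩
      refine List.prefix_of_prefix_length_le h5 h6 ?_
      have h7 := congrArg List.length hu1
      have h8 := congrArg List.length h2
      rw [List.length_append] at h7 h8
      have := hmax j hj
      omega
    exact h3 a (h4.subset ha)
  obtain ⟨u, hu, -⟩ := drop_spec j0 l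
  obtain ⟨v, hv, -⟩ := drop_spec j0 l'
  rw [← h j0 hj0] at hv
  exact ⟨u, v, drop j0 l, hu, hv, key l (fun _ _ => rfl) u hu, key l' h v hv⟩

theorem drop_inj [Finite N] [Nontrivial N] {l l' : List (Mod N × X)}
    (h : ∀ j, drop j l = drop j l') : l = l' := by
  obtain ⟨u, v, s, hu, hv, h1, h2⟩ := common (J := Set.univ) Set.univ_nonempty
    (fun j _ => h j)
  have key : ∀ w : List (Mod N × X), (∀ a ∈ w, ∀ j ∈ (Set.univ : Set N), InL j a.1) → w = [] := by
    intro w hw
    rcases w with _ | ⟨a, w⟩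
    · rfl
    · exfalso
      have h3 := fun j => hw a List.mem_cons_self j (Set.mem_univ _)
      rcases ha : a.1 with i | i | i
      · rcases h3 i with h4 | ⟨k, -, h4⟩ <;> rw [ha] at h4 <;> cases h4
      · obtain ⟨j, hj⟩ := exists_ne i
        rcases h3 j with h4 | ⟨k, -, h4⟩
        · rw [ha] at h4
          injection h4 with h4
          exact hj h4.symm
        · rw [ha] at h4; cases h4
      · rcases h3 i with h4 | ⟨k, hk, h4⟩
        · rw [ha] at h4; cases h4
        · rw [ha] at h4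
          injection h4 with h4
          exact hk h4.symm
  rw [key u h1] at hu
  rw [key v h2] at hv
  rw [hu, hv]

variable (R)

/-- the game model of a Kripke model -/
noncomputable def game [Finite N] [Nontrivial N] (hR : Good R) (val : P → X → Prop) :
    FullModel P N where
  A _ := List (Mod N × X)
  ne _ := ⟨[]⟩
  le i σ τ := σ = τ ∨ ∃ l l', σ = (fun j => drop j l) ∧ τ = (fun j => drop j l') ∧
    R (.le i) (last R x0 l) (last R x0 l')
  refl _ _ := Or.inl rfl
  trans i σ τ υ := by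
    rintro (rfl | ⟨l1, l2, h1, h2, h3⟩)
    · exact id
    · rintro (rfl | ⟨l3, l4, h4, h5, h6⟩)
      · exact Or.inr ⟨l1, l2, h1, h2, h3⟩
      · have : l2 = l3 := drop_inj fun j => congrFun (h2.symm.trans h4) j
        subst this
        exact Or.inr ⟨l1, l4, h1, h5, hR.trans _ _ _ _ h3 h6⟩
  V p := {σ | ∃ l, σ = (fun j => drop j l) ∧ val p (last R x0 l)}

theorem last_cons {e : Mod N} {l : List (Mod N × X)} {y : X} (h : R e (last R x0 l) y) :
    last R x0 ((e, y) :: l) = y := by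
  rw [last, if_pos h]

theorem game_sat [Finite N] [Nontrivial N] (hR : Good R) (val : P → X → Prop) (φ : Form P N)
    (l : List (Mod N × X)) :
    Sat (game R x0 hR val) (Set.range fun (l : List (Mod N × X)) j => drop j l) φ
      (fun j => drop j l) ↔ KSat R val φ (last R x0 l) := by
  induction φ generalizing l with
  | atom p =>
    rw [Sat, KSat]
    constructor
    · rintro ⟨l', h1, h2⟩
      rwa [drop_inj fun j => congrFun h1 j]
    · intro h
      exact ⟨l, rfl, h⟩
  | neg φ ih => rw [Sat, KSat, ih]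
  | or φ ψ ih1 ih2 => rw [Sat, KSat, ih1, ih2]
  | dia m φ ih =>
    rw [Sat, KSat]
    constructor
    · rintro ⟨_, ⟨l', rfl⟩, h1, h2⟩
      refine ⟨last R x0 l', ?_, (ih l').1 h2⟩
      rcases m with i | i | i
      · rcases h1 with h1 | ⟨l1, l2, h3, h4, h5⟩
        · rw [drop_inj fun j => congrFun h1 j]
          exact hR.refl _ _
        · rw [drop_inj fun j => congrFun h3 j, drop_inj fun j => congrFun h4 j]
          exact h5
      · have h1' : drop i l = drop i l' := h1
        obtain ⟨u, hu, hu'⟩ := drop_spec i l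
        obtain ⟨v, hv, hv'⟩ := drop_spec i l'
        have key : ∀ w : List (Mod N × X), (∀ a ∈ w, InL i a.1) →
            ∀ a ∈ w, ∀ x y, R a.1 x y → R (.sim i) x y := by
          intro w hw a ha x y hxy
          rcases hw a ha with h3 | ⟨k, hk, h3⟩
          · rwa [h3] at hxy
          · rw [h3] at hxy
            exact hR.incl k i x y hk hxy
        have h3 := last_append x0 hR (hR.symSim i) u (drop i l) (key u hu')
        have h4 := last_append x0 hR (hR.symSim i) v (drop i l') (key v hv')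
        rw [← hu] at h3
        rw [← hv, ← h1'] at h4
        exact hR.trans _ _ _ _ h3 (hR.symSim _ _ _ h4)
      · have h1' : ∀ j ∈ {j | j ≠ i}, drop j l = drop j l' := h1
        obtain ⟨u, v, s, hu, hv, hu', hv'⟩ := common (exists_ne i) h1'
        have key : ∀ w : List (Mod N × X), (∀ a ∈ w, ∀ j ∈ {j | j ≠ i}, InL j a.1) →
            ∀ a ∈ w, ∀ x y, R a.1 x y → R (.app i) x y := by
          intro w hw a ha x y hxy
          have h3 := hw a ha
          rcases hm : a.1 with k | k | k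
          · obtain ⟨j, hj⟩ := exists_ne i
            rcases h3 j hj with h4 | ⟨_, -, h4⟩ <;> rw [hm] at h4 <;> cases h4
          · rw [hm] at hxy
            have h4 : ∀ j, j ≠ i → k = j := by
              intro j hj
              rcases h3 j hj with h4 | ⟨_, -, h4⟩
              · rw [hm] at h4
                injection h4
              · rw [hm] at h4; cases h4
            obtain ⟨j, hj⟩ := exists_ne i
            have hkj := h4 j hj
            subst hkj
            refine hR.two i k x y ?_ hj.symm hxy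
            rw [Nat.card_eq_two_iff]
            refine ⟨i, k, hj.symm, Set.eq_univ_of_forall fun j => ?_⟩
            by_cases h5 : j = i
            · exact Or.inl h5
            · exact Or.inr (h4 j h5).symm
          · rw [hm] at hxy
            have h4 : k = i := by
              by_contra hk
              rcases h3 k hk with h4 | ⟨k', hk', h4⟩
              · rw [hm] at h4; cases h4
              · rw [hm] at h4
                injection h4 with h4
                exact hk' h4.symm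
            rwa [h4] at hxy
        have h3 := last_append x0 hR (hR.symApp i) u s (key u hu')
        have h4 := last_append x0 hR (hR.symApp i) v s (key v hv')
        rw [← hu] at h3
        rw [← hv] at h4
        exact hR.trans _ _ _ _ h3 (hR.symApp _ _ _ h4)
    · rintro ⟨y, h1, h2⟩
      rcases m with i | i | i
      · obtain ⟨j, hj⟩ := exists_ne i
        -- a step along the preference relation is a new point of the sequence
        refine ⟨fun j => drop j ((.le i, y) :: l), ⟨_, rfl⟩, Or.inr ⟨l, _, rfl, rfl, ?_⟩, ?_⟩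
        · rw [last_cons R x0 h1]; exact h1
        · rw [ih, last_cons R x0 h1]; exact h2
      · refine ⟨fun j => drop j ((.sim i, y) :: l), ⟨_, rfl⟩, ?_, ?_⟩
        · exact (drop_cons (a := (.sim i, y)) (Or.inl rfl) l).symm
        · rw [ih, last_cons R x0 h1]; exact h2
      · refine ⟨fun j => drop j ((.app i, y) :: l), ⟨_, rfl⟩, ?_, ?_⟩
        · intro j hj
          exact (drop_cons (a := (.app i, y)) (Or.inr ⟨i, hj.symm, rfl⟩) l).symm
        · rw [ih, last_cons R x0 h1]; exact h2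

end Unravel

/-! ### Soundness -/

theorem sat_val (M : FullModel P N) (W : Set (∀ i, M.A i)) (σ : ∀ i, M.A i) :
    Val (fun φ : Form P N => Sat M W φ σ) :=
  ⟨fun _ => Iff.rfl, fun _ _ => Iff.rfl⟩

theorem sat_imp (M : FullModel P N) (W : Set (∀ i, M.A i)) (σ : ∀ i, M.A i) (φ ψ : Form P N) :
    Sat M W (imp φ ψ) σ ↔ (Sat M W φ σ → Sat M W ψ σ) := (sat_val M W σ).imp φ ψ

theorem sat_box (M : FullModel P N) (W : Set (∀ i, M.A i)) (σ : ∀ i, M.A i) (m : Mod N)
    (φ : Form P N) : Sat M W (box m φ) σ ↔ ∀ τ ∈ W, M.rel m σ τ → Sat M W φ τ := by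
  rw [box, Sat, Sat]
  push Not
  simp only [Sat, not_not]

theorem rel_refl (M : FullModel P N) (m : Mod N) (σ : ∀ i, M.A i) : M.rel m σ σ := by
  rcases m with i | i | i
  · exact M.refl i σ
  · exact rfl
  · exact fun _ _ => rfl

theorem rel_trans (M : FullModel P N) (m : Mod N) (σ τ υ : ∀ i, M.A i) (h1 : M.rel m σ τ)
    (h2 : M.rel m τ υ) : M.rel m σ υ := by
  rcases m with i | i | i
  · exact M.trans i σ τ υ h1 h2
  · exact Eq.trans h1 h2
  · exact fun j hj => (h1 j hj).trans (h2 j hj)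

theorem sound {φ : Form P N} (h : Prov φ) : Valid φ := by
  induction h with
  | taut φ h =>
    exact fun M W σ _ => h (fun ψ => Sat M W ψ σ) (sat_val M W σ).1 (sat_val M W σ).2
  | K m φ ψ =>
    intro M W σ _
    rw [sat_imp, sat_imp, sat_box, sat_box, sat_box]
    intro h1 h2 τ hτ hστ
    exact (sat_imp M W τ φ ψ).1 (h1 τ hτ hστ) (h2 τ hτ hστ)
  | dual₁ m φ =>
    intro M W σ _
    rw [sat_imp, Sat, sat_box, Sat]
    rintro ⟨τ, hτ, h1, h2⟩ h3
    exact h3 τ hτ h1 h2
  | dual₂ m φ =>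
    intro M W σ _
    rw [sat_imp, Sat, sat_box, Sat]
    intro h
    push Not at h
    obtain ⟨τ, hτ, h1, h2⟩ := h
    exact ⟨τ, hτ, h1, not_not.1 h2⟩
  | T m φ =>
    intro M W σ hσ
    rw [sat_imp, Sat]
    exact fun h => ⟨σ, hσ, rel_refl M m σ, h⟩
  | four m φ =>
    intro M W σ hσ
    rw [sat_imp, Sat, Sat]
    rintro ⟨τ, hτ, h1, h2⟩
    obtain ⟨υ, hυ, h3, h4⟩ := h2
    exact ⟨υ, hυ, rel_trans M m _ _ _ h1 h3, h4⟩
  | symSim i φ =>
    intro M W σ hσ
    rw [sat_imp, sat_box]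
    exact fun h τ hτ h1 => ⟨σ, hσ, Eq.symm h1, h⟩
  | symApp i φ =>
    intro M W σ hσ
    rw [sat_imp, sat_box]
    exact fun h τ hτ h1 => ⟨σ, hσ, fun j hj => (h1 j hj).symm, h⟩
  | incl i j φ hij =>
    intro M W σ hσ
    rw [sat_imp, Sat, Sat]
    rintro ⟨τ, hτ, h1, h2⟩
    exact ⟨τ, hτ, h1 j hij.symm, h2⟩
  | two i j φ h2 hij =>
    intro M W σ hσ
    rw [sat_imp, Sat, Sat]
    rintro ⟨τ, hτ, h1, h3⟩
    refine ⟨τ, hτ, fun k hk => ?_, h3⟩
    have h4 : k = j := by
      rw [Nat.card_eq_two_iff] at h2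
      obtain ⟨x, y, hxy, h5⟩ := h2
      have hi : i ∈ ({x, y} : Set N) := h5 ▸ Set.mem_univ i
      have hj : j ∈ ({x, y} : Set N) := h5 ▸ Set.mem_univ j
      have hk' : k ∈ ({x, y} : Set N) := h5 ▸ Set.mem_univ k
      simp only [Set.mem_insert_iff, Set.mem_singleton_iff] at hi hj hk'
      rcases hi with rfl | rfl <;> rcases hj with rfl | rfl <;> rcases hk' with rfl | rfl <;>
        first | rfl | exact absurd rfl hij | exact absurd rfl hk
    rw [h4]
    exact h1
  | mp φ ψ _ _ ih1 ih2 =>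
    exact fun M W σ hσ => (sat_imp M W σ φ ψ).1 (ih1 M W σ hσ) (ih2 M W σ hσ)
  | nec m φ _ ih =>
    intro M W σ hσ
    rw [sat_box]
    exact fun τ hτ _ => ih M W τ hτ

/-- **Strong completeness.** -/
theorem complete [Finite N] [Nontrivial N] {Γ : Set (Form P N)} {φ : Form P N}
    (h : ∀ (M : FullModel P N) (W : Set (∀ i, M.A i)), ∀ σ ∈ W, (∀ ψ ∈ Γ, Sat M W ψ σ) →
      Sat M W φ σ) : Ded Γ φ := by
  by_contra hcon
  obtain ⟨Δ, h1, hΔ, h2⟩ := lindenbaum hcon
  let w : World P N := ⟨Δ, hΔ⟩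
  have h3 := fun ψ => game_sat (P := P) canR w can_good (fun p Γ => atom p ∈ Γ.1) ψ []
  have h4 := h (game canR w can_good (fun p Γ => atom p ∈ Γ.1))
    (Set.range fun (l : List (Mod N × World P N)) j => drop j l) (fun j => drop j [])
    (Set.mem_range_self (f := fun (l : List (Mod N × World P N)) j => drop j l) [])
    (fun ψ hψ => (h3 ψ).2 ((truth ψ _).2 (h1 hψ)))
  exact h2 ((truth φ _).1 ((h3 φ).1 h4))

end Pool.Agent.X329.GGM
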